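import Pool.Agent.K3h83.IN.Stm5
import Pool.Agent.Y63.AWC.Deg
import Pool.Agent.Q90.WR.Rep

/-!
# Multiplicities in the restriction to a normal subgroup, orbits and degrees
-/

set_option autoImplicit false
set_option linter.unusedSectionVars false

open scoped BigOperators Classical

noncomputable section

namespace Pool.Agent.K3h90.IN

open Pool.Agent.Helper884 Pool.Agent.K3h3.KB Pool.Agent.K3h3.MK Pool.Agent.K3h83.IN
open Pool.Agent.H254R3.IN (IsIrr mem_Irr RF red)
open IC (Irr)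

/-- `aN` is the multiplicity (for a normal subgroup) -/
def N1n : Prop := ∀ (A G : Type) [Group A] [Finite A] [Group G] [Finite G] (H : Subgroup A)
  (_ : H.Normal) [Fintype H] (ι : A →* G) (χ : G → ℂ) (φ : H → ℂ), Function.Injective ι →
  IsIrr χ → IsIrr φ →
  (aN H ι χ φ : ℂ) = IC.B (fun y : H => χ (ι y)) φ ∧
  ∀ (a : A) (φ' : H → ℂ), IsIrr φ' → (∀ y y' : H, a * y * a⁻¹ = y' → φ' y' = φ y) →
    aN H ι χ φ' = aN H ι χ φ

section basic

variable {A G : Type} [Group A] [Finite A] [Group G] [Finite G] (H : Subgroup A)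
  (ι : A →* G) {χ : G → ℂ}

theorem aN_spec [Fintype H] (hχ : IsIrr χ) {φ : H → ℂ} (hφ : IsIrr φ) :
    (aN H ι χ φ : ℂ) = IC.B (fun y : H => χ (ι y)) φ := by
  obtain ⟨V, _, _, _, ρ, hr, rfl⟩ := hχ
  obtain ⟨W, _, _, _, σ, hs, rfl⟩ := hφ
  obtain ⟨n, hn⟩ := Pool.Agent.Q90.WR.B_nat (G := H) (ρ.comp (ι.comp H.subtype)) σ
  have h1 : IC.B (fun y : H => ρ.character (ι y)) σ.character = (n : ℂ) := hn
  have h2 : aN H ι ρ.character σ.character = n := by
    unfold aN
    have h3 : Fintype.ofFinite H = (inferInstance : Fintype H) := Subsingleton.elim _ _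
    rw [h3, h1, Complex.natCast_re, Nat.floor_natCast]
  rw [h2, h1]

variable [hH : H.Normal]

/-- the action of `A` on the functions on `H` -/
@[reducible] def act : MulAction A (H → ℂ) where
  smul a f := fun y => f (MulAut.conjNormal a⁻¹ y)
  one_smul f := by
    funext y
    change f (MulAut.conjNormal (1 : A)⁻¹ y) = f y
    simp
  mul_smul a b f := by
    funext y
    change f (MulAut.conjNormal (a * b)⁻¹ y) = f (MulAut.conjNormal b⁻¹ (MulAut.conjNormal a⁻¹ y))
    rw [mul_inv_rev, map_mul, MulAut.mul_apply]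

/-- the conjugate function -/
def cj (a : A) (f : H → ℂ) : H → ℂ := fun y => f (MulAut.conjNormal a⁻¹ y)

theorem cj_iff (a : A) (f f' : H → ℂ) :
    (∀ y y' : H, a * y * a⁻¹ = y' → f' y' = f y) ↔ f' = cj H a f := by
  constructor
  · intro h
    funext y'
    have h1 := h (MulAut.conjNormal a⁻¹ y') y' (by
      rw [MulAut.conjNormal_apply]
      group)
    rw [h1]
    rfl
  · rintro rfl y y' h
    change f (MulAut.conjNormal a⁻¹ y') = f y
    congr 1
    apply Subtype.ext
    rw [MulAut.conjNormal_apply, ← h]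
    group

theorem cj_irr (a : A) {f : H → ℂ} (h : IsIrr f) : IsIrr (cj H a f) :=
  Pool.Agent.Q90.WR.irr_comp (MulAut.conjNormal a⁻¹) h

theorem cj_one (a : A) (f : H → ℂ) : cj H a f 1 = f 1 := by
  unfold cj
  rw [map_one]

theorem ndeg_cj (a : A) (f : H → ℂ) : ndeg (cj H a f) = ndeg f := by
  unfold ndeg
  rw [cj_one]

theorem aN_cj (hχ : IsIrr χ) {φ : H → ℂ} (hφ : IsIrr φ) (a : A) :
    aN H ι χ (cj H a φ) = aN H ι χ φ := by
  letI := Fintype.ofFinite H
  have h1 := aN_spec H ι hχ (cj_irr H a hφ)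
  have h2 := aN_spec H ι hχ hφ
  have h3 : IC.B (fun y : H => χ (ι y)) (cj H a φ) = IC.B (fun y : H => χ (ι y)) φ := by
    unfold IC.B
    congr 1
    refine Fintype.sum_equiv (MulAut.conjNormal a⁻¹).toEquiv _ _ fun y => ?_
    have e1 : χ (ι ((MulAut.conjNormal a⁻¹ y : H) : A)) = χ (ι y) := by
      rw [MulAut.conjNormal_apply, map_mul, map_mul, inv_inv, map_inv]
      have := hχ.conj (ι (y : A)) (ι a)⁻¹
      rwa [inv_inv] at this
    change χ (ι y) * φ (MulAut.conjNormal a⁻¹ y⁻¹) =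
      χ (ι ((MulAut.conjNormal a⁻¹ y : H) : A)) * φ (MulAut.conjNormal a⁻¹ y)⁻¹
    rw [e1, map_inv]
  rw [← h1, ← h2] at h3
  exact_mod_cast h3

/-- the orbit of `φ` -/
def orb (φ : H → ℂ) : Set (H → ℂ) := Set.range fun a : A => cj H a φ

theorem card_orb (φ : H → ℂ) : Nat.card (orb H φ) * stb H φ = Nat.card A := by
  letI := act H
  have h1 : orb H φ = MulAction.orbit A φ := rfl
  have h2 : stb H φ = Nat.card (MulAction.stabilizer A φ) := by
    unfold stb
    refine Nat.card_congr (Equiv.subtypeEquivRight fun a => ?_)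
    have h3 : fixes H.subtype φ a ↔ ∀ y y' : H, a * y * a⁻¹ = y' → φ y' = φ y := Iff.rfl
    rw [h3, cj_iff, MulAction.mem_stabilizer_iff]
    exact eq_comm
  rw [h1, h2, ← Nat.card_prod]
  exact Nat.card_congr (MulAction.orbitProdStabilizerEquivGroup A φ)

theorem mem_orb_self (φ : H → ℂ) : φ ∈ orb H φ := ⟨1, by
  funext y
  simp [cj]⟩

theorem orb_eq {φ φ' : H → ℂ} (h : φ' ∈ orb H φ) : orb H φ' = orb H φ := by
  letI := act H
  exact MulAction.orbit_eq_iff.2 h

theorem stb_pos (φ : H → ℂ) : 0 < stb H φ := by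
  have h1 := card_orb H φ
  have h2 : 0 < Nat.card A := Nat.card_pos
  rw [← h1] at h2
  exact Nat.pos_of_mul_pos_left h2 |> fun h => by
    rcases Nat.eq_zero_or_pos (stb H φ) with h0 | h0
    · rw [h0, mul_zero] at h2
      exact absurd h2 (lt_irrefl 0)
    · exact h0

theorem stb_eq {φ φ' : H → ℂ} (h : φ' ∈ orb H φ) : stb H φ' = stb H φ := by
  have h1 := card_orb H φ
  have h2 := card_orb H φ'
  rw [orb_eq H h] at h2
  have h3 : 0 < Nat.card (orb H φ) := by
    rcases Nat.eq_zero_or_pos (Nat.card (orb H φ)) with h0 | h0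
    · rw [h0, zero_mul] at h1
      exact absurd h1.symm (Nat.card_pos (α := A)).ne'
    · exact h0
  exact Nat.eq_of_mul_eq_mul_left h3 (h2.trans h1.symm)

end basic

theorem t_N1n : N1n := by
  intro A G _ _ _ _ H hH _ ι χ φ _ hχ hφ
  refine ⟨aN_spec H ι hχ hφ, fun a φ' _ h => ?_⟩
  rw [(cj_iff H a φ φ').1 h]
  exact aN_cj H ι hχ hφ a

end Pool.Agent.K3h90.IN
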