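import Pool.Agent.K3h90.IN.Mult

/-!
# Degrees and multiplicities modulo `p`
-/

set_option autoImplicit false
set_option linter.unusedSectionVars false

open scoped BigOperators Classical

noncomputable section

namespace Pool.Agent.K3h90.IN

open Pool.Agent.Helper884 Pool.Agent.K3h3.KB Pool.Agent.K3h3.MK Pool.Agent.K3h83.IN
open Pool.Agent.H254R3.IN (IsIrr mem_Irr RF red)
open IC (Irr)

section

variable {A G : Type} [Group A] [Finite A] [Group G] [Finite G] {P H : Subgroup A}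
  (ι : A →* G) {χ : G → ℂ}

/-- the degree is the sum of the multiplicities times the degrees -/
theorem deg_sum [Fintype H] (hχ : IsIrr χ) :
    ndeg χ = ∑ φ ∈ Irr H, aN H ι χ φ * ndeg φ := by
  have hc : IC.IsClass (fun y : H => χ (ι y)) := by
    intro g y
    change χ (ι ((y * g * y⁻¹ : H) : A)) = χ (ι g)
    simp only [Subgroup.coe_mul, Subgroup.coe_inv, map_mul, map_inv]
    letI := Fintype.ofFinite G
    exact IC.IsIrrChar.isClass hχ _ _
  have h1 := congrFun (IC.expand _ hc) 1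
  have h2 : (ndeg χ : ℂ) = ∑ φ ∈ Irr H, (aN H ι χ φ : ℂ) * (ndeg φ : ℂ) := by
    rw [ndeg_cast hχ]
    simp only [OneMemClass.coe_one, map_one] at h1
    rw [h1, Finset.sum_apply]
    refine Finset.sum_congr rfl fun φ hφ => ?_
    rw [Pi.smul_apply, smul_eq_mul, aN_spec H ι hχ (mem_Irr.1 hφ), ndeg_cast (mem_Irr.1 hφ)]
  exact_mod_cast h2

variable {p : ℕ} [Fact p.Prime]

/-- by block orthogonality the constituents with multiplicity prime to `p` form an orbit -/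
theorem filt_iff (h2 : N2) (hL : LD p P H) (hE : EM p P ι) [Fintype H] (hχ : IsIrr χ) {φ : H → ℂ}
    (hφ : IsIrr φ) (hn : ¬ p ∣ aN H ι χ φ) (φ' : H → ℂ) :
    φ' ∈ (Irr H).filter (fun φ => ¬ p ∣ aN H ι χ φ) ↔ φ' ∈ orb H (hH := hL.nH) φ := by
  haveI := hL.nH
  rw [Finset.mem_filter, mem_Irr]
  constructor
  · rintro ⟨h3, h4⟩
    obtain ⟨a, ha⟩ := h2 p A G P H ι hL hE χ φ φ' hχ hφ h3 hn h4
    exact ⟨a, ((cj_iff H a φ φ').1 ha).symm⟩
  · rintro ⟨a, rfl⟩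
    refine ⟨cj_irr H a hφ, ?_⟩
    change ¬ p ∣ aN H ι χ (cj H a φ)
    rwa [aN_cj H ι hχ hφ a]

theorem filt_card (h2 : N2) (hL : LD p P H) (hE : EM p P ι) [Fintype H] (hχ : IsIrr χ) {φ : H → ℂ}
    (hφ : IsIrr φ) (hn : ¬ p ∣ aN H ι χ φ) :
    ((Irr H).filter (fun φ => ¬ p ∣ aN H ι χ φ)).card * stb H φ = Nat.card A := by
  haveI := hL.nH
  rw [← card_orb H φ]
  congr 1
  have h3 : orb H φ = (((Irr H).filter (fun φ => ¬ p ∣ aN H ι χ φ) : Finset (H → ℂ)) :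
      Set (H → ℂ)) := by
    ext φ'
    exact (filt_iff ι h2 hL hE hχ hφ hn φ').symm
  rw [h3, Nat.card_coe_set_eq, Set.ncard_coe_finset]

theorem filt_div (h2 : N2) (hL : LD p P H) (hE : EM p P ι) [Fintype H] (hχ : IsIrr χ) {φ : H → ℂ}
    (hφ : IsIrr φ) (hn : ¬ p ∣ aN H ι χ φ) :
    Nat.card A / stb H φ = ((Irr H).filter (fun φ => ¬ p ∣ aN H ι χ φ)).card := by
  haveI := hL.nH
  exact Nat.div_eq_of_eq_mul_left (stb_pos H φ) (filt_card ι h2 hL hE hχ hφ hn).symm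

theorem deg_mod (h2 : N2) (hL : LD p P H) (hE : EM p P ι) [Fintype H] (hχ : IsIrr χ) {φ : H → ℂ}
    (hφ : IsIrr φ) (hn : ¬ p ∣ aN H ι χ φ) :
    (ndeg χ : ZMod p) = ((Nat.card A / stb H φ : ℕ) : ZMod p) * (aN H ι χ φ : ZMod p) *
      (ndeg φ : ZMod p) := by
  haveI := hL.nH
  rw [filt_div ι h2 hL hE hχ hφ hn]
  have h3 : (ndeg χ : ZMod p) = ∑ φ' ∈ Irr H, (aN H ι χ φ' : ZMod p) * (ndeg φ' : ZMod p) := by
    rw [deg_sum ι hχ (H := H)]
    push_cast
    rfl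
  rw [h3, ← Finset.sum_filter_of_ne (p := fun φ => ¬ p ∣ aN H ι χ φ)]
  · rw [Finset.sum_congr rfl (g := fun _ => (aN H ι χ φ : ZMod p) * (ndeg φ : ZMod p))]
    · rw [Finset.sum_const, nsmul_eq_mul, mul_assoc]
    · intro φ' h4
      obtain ⟨a, rfl⟩ := (filt_iff ι h2 hL hE hχ hφ hn φ').1 h4
      change (aN H ι χ (cj H a φ) : ZMod p) * (ndeg (cj H a φ) : ZMod p) = _
      rw [aN_cj H ι hχ hφ a, ndeg_cj]
  · intro φ' _ h4 h5
    apply h4
    rw [(ZMod.natCast_eq_zero_iff _ _).2 h5, zero_mul]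

theorem card_P_dvd (hL : LD p P H) (φ : H → ℂ) : Nat.card P ∣ stb H φ := by
  haveI := hL.nH
  letI := act H
  have h2 : stb H φ = Nat.card (MulAction.stabilizer A φ) := by
    unfold stb
    refine Nat.card_congr (Equiv.subtypeEquivRight fun a => ?_)
    have h3 : fixes H.subtype φ a ↔ ∀ y y' : H, a * y * a⁻¹ = y' → φ y' = φ y := Iff.rfl
    rw [h3, cj_iff, MulAction.mem_stabilizer_iff]
    exact eq_comm
  rw [h2]
  apply Subgroup.card_dvd_of_le
  intro x hx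
  rw [MulAction.mem_stabilizer_iff]
  refine ((cj_iff H x φ φ).1 ?_).symm
  intro y y' h
  rw [hL.com x hx y y.2, mul_inv_cancel_right] at h
  rw [Subtype.ext h]

theorem not_dvd_div (hL : LD p P H) (φ : H → ℂ) : ¬ p ∣ Nat.card A / stb H φ := by
  haveI := hL.nH
  intro h
  apply hL.idx
  refine h.trans ?_
  obtain ⟨m, hm⟩ := card_P_dvd hL φ
  refine ⟨m, ?_⟩
  have h1 : Nat.card A / stb H φ = Nat.card (orb H φ) :=
    Nat.div_eq_of_eq_mul_left (stb_pos H φ) (card_orb H φ).symm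
  rw [h1]
  have h2 := card_orb H φ
  rw [hm, ← P.card_mul_index, mul_left_comm] at h2
  exact (Nat.eq_of_mul_eq_mul_left Nat.card_pos h2).symm

theorem not_dvd_deg (hL : LD p P H) {φ : H → ℂ} (hφ : IsIrr φ) : ¬ p ∣ ndeg φ := by
  intro h
  apply hL.cH
  letI := Fintype.ofFinite H
  exact h.trans (Pool.Agent.Y63.AWC.deg_dvd hφ (ndeg_cast hφ).symm)

end

theorem t_N3 (h2 : N2) : N3 := by
  intro p _ A G _ _ _ _ P H ι hL hE χ hχ
  letI := Fintype.ofFinite H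
  refine ⟨?_, ?_, ?_⟩
  · intro h0
    by_contra h3
    push Not at h3
    apply h0
    rw [deg_sum ι hχ (H := H)]
    rw [ZMod.natCast_eq_zero_iff]
    refine Finset.dvd_sum fun φ hφ => ?_
    exact (h3 φ (mem_Irr.1 hφ)).mul_right _
  · intro h0 φ hφ
    by_contra hn
    have h3 := deg_mod ι h2 hL hE hχ hφ hn
    rw [h0] at h3
    have e1 : (((Nat.card A / stb H φ : ℕ)) : ZMod p) ≠ 0 := by
      rw [Ne, ZMod.natCast_eq_zero_iff]
      exact not_dvd_div hL φ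
    have e2 : (aN H ι χ φ : ZMod p) ≠ 0 := by
      rwa [Ne, ZMod.natCast_eq_zero_iff]
    have e3 : (ndeg φ : ZMod p) ≠ 0 := by
      rw [Ne, ZMod.natCast_eq_zero_iff]
      exact not_dvd_deg hL hφ
    exact mul_ne_zero (mul_ne_zero e1 e2) e3 h3.symm
  · intro φ hφ hn
    exact deg_mod ι h2 hL hE hχ hφ hn

theorem t_N9 (h2 : N2) : N9 := by
  intro p _ A G _ _ _ _ P H _ ι hL hE χ hχ h0
  haveI := hL.nH
  obtain ⟨φ, hφ, hn⟩ := (t_N3 h2 p A G P H ι hL hE χ hχ).1 h0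
  rw [← filt_card ι h2 hL hE hχ hφ hn, Finset.sum_congr rfl (g := fun _ => stb H φ)]
  · rw [Finset.sum_const, smul_eq_mul]
  · intro φ' h4
    exact stb_eq H ((filt_iff ι h2 hL hE hχ hφ hn φ').1 h4)

end Pool.Agent.K3h90.IN
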